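import Pool.Agent.ZonoLin.Round2
import Pool.Agent.ZonoLin.Final
import Pool.Agent.ZonoLin.Own

set_option autoImplicit false

namespace Pool.Agent.Results.MP_971d29_gt.LinearlyManySegments

open Pointwise

/-- There is a universal `C > 0` such that for every zonotope `K = ∑ [-a i, a i]` in `ℝ^d` and
every `0 < ε ≤ 1/2` there is a zonotope `Q = ∑ [-b i, b i]` with at most `C d / ε ^ 2` segments
and `Q ⊆ K ⊆ (1 + ε) Q`. -/
theorem result :
    ∃ C : ℝ, 0 < C ∧ ∀ (d m : ℕ) (a : Fin m → EuclideanSpace ℝ (Fin d)) (ε : ℝ),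
      0 < ε → ε ≤ 1 / 2 →
      ∃ (n : ℕ) (b : Fin n → EuclideanSpace ℝ (Fin d)), (n : ℝ) ≤ C * d / ε ^ 2 ∧
        ∑ i, segment ℝ (-b i) (b i) ⊆ ∑ i, segment ℝ (-a i) (a i) ∧
        ∑ i, segment ℝ (-a i) (a i) ⊆ (1 + ε) • ∑ i, segment ℝ (-b i) (b i) :=
  ZonoLin.Own.of_matrix
    (_root_.ZonoLin.final_of_round (fun _ hd m a hm => _root_.ZonoLin.round_general hd m a hm))

end Pool.Agent.Results.MP_971d29_gt.LinearlyManySegments
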