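import Pool.Agent.Zono.TU

/-!
# Linear-size approximation of linear images of regular zonotopes

If `A = diag(c) B L` with `B` totally unimodular with `D` columns and `L` an arbitrary real matrix,
then at most `C D / ε ^ 2` of the segments of the zonotope of `A`, suitably rescaled, approximate it
up to the factor `1 + ε`.
-/

namespace Pool.Agent.Results.MP_971d29_gt.RegularLift

open Matrix Finset Pool.Agent.Zono

/-- There is a universal constant `C` such that for every real matrix `A = diag(c) B L`, where `B` is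
totally unimodular with `D` columns and `c`, `L` are arbitrary, and all `0 < ε ≤ 1 / 2`, there are
nonnegative weights `s i`, at most `C D / ε ^ 2` of them nonzero, such that
`∑ s i |(A x) i| ≤ ∑ |(A x) i| ≤ (1 + ε) ∑ s i |(A x) i|` for all `x`. -/
theorem result :
    ∃ C : ℝ, 0 < C ∧
      ∀ (m D d : ℕ) (c : Fin m → ℝ) (B : Matrix (Fin m) (Fin D) ℝ)
        (L : Matrix (Fin D) (Fin d) ℝ), B.IsTotallyUnimodular →
        ∀ A : Matrix (Fin m) (Fin d) ℝ, A = Matrix.diagonal c * B * L →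
          ∀ ε : ℝ, 0 < ε → ε ≤ 1 / 2 →
            ∃ s : Fin m → ℝ, (∀ i, 0 ≤ s i) ∧
              ((Finset.univ.filter fun i => s i ≠ 0).card : ℝ) ≤ C * (D : ℝ) / ε ^ 2 ∧
              ∀ x : Fin d → ℝ,
                (∑ i, s i * |(Matrix.mulVec A x) i|) ≤ ∑ i, |(Matrix.mulVec A x) i| ∧
                (∑ i, |(Matrix.mulVec A x) i|) ≤
                  (1 + ε) * ∑ i, s i * |(Matrix.mulVec A x) i| := by
  refine ⟨73, by norm_num, ?_⟩
  intro m D d c B L hB A hA ε hε hε2
  obtain ⟨N, hN1, hN2⟩ : ∃ N : ℕ, 8 / ε ≤ N ∧ (N : ℝ) < 8 / ε + 1 :=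
    ⟨⌈8 / ε⌉₊, Nat.le_ceil _, Nat.ceil_lt_add_one (by positivity)⟩
  have hNε : 8 ≤ N * ε := (div_le_iff₀ hε).1 hN1
  have hNε2 : (N : ℝ) * ε < 8.5 := by
    have h1 : (N : ℝ) * ε < (8 / ε + 1) * ε := mul_lt_mul_of_pos_right hN2 hε
    have h2 : (8 / ε + 1) * ε = 8 + ε := by field_simp
    rw [h2] at h1
    linarith
  have hN16 : (16 : ℝ) ≤ N := by
    by_contra h
    push Not at h
    nlinarith
  have hN : 2 ≤ N := by
    have : (2 : ℝ) ≤ N := by linarith
    exact_mod_cast this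
  obtain ⟨s, hs, ⟨T, hT1, hT2⟩, h⟩ :=
    bss_general (Matrix.diagonal (fun i => Real.sqrt |c i|) * B) N hN
  refine ⟨s, hs, ?_, fun x => ?_⟩
  · have h1 : (univ.filter fun i => s i ≠ 0).card ≤ N ^ 2 * D := by
      refine le_trans (card_le_card fun i hi => ?_) hT1
      by_contra h'
      exact (mem_filter.1 hi).2 (hT2 i h')
    have h2 : ((univ.filter fun i => s i ≠ 0).card : ℝ) ≤ (N : ℝ) ^ 2 * D := by
      exact_mod_cast h1
    refine h2.trans ?_
    rw [le_div_iff₀ (by positivity)]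
    have h3 : (N : ℝ) ^ 2 * ε ^ 2 ≤ 73 := by
      have : (N : ℝ) ^ 2 * ε ^ 2 = (N * ε) ^ 2 := by ring
      rw [this]
      nlinarith
    have hD : (0 : ℝ) ≤ D := Nat.cast_nonneg D
    calc (N : ℝ) ^ 2 * (D : ℝ) * ε ^ 2 = ((N : ℝ) ^ 2 * ε ^ 2) * (D : ℝ) := by ring
      _ ≤ 73 * (D : ℝ) := mul_le_mul_of_nonneg_right h3 hD
  · -- the inequalities for conformal decompositions
    have key : ∀ a ∈ AddSubmonoid.closure (Cuts B),
        (∑ i, s i * (|c i| * a i) ≤ ∑ i, |c i| * a i) ∧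
          ((N : ℝ) - 1) ^ 2 * ∑ i, |c i| * a i ≤
            ((N : ℝ) + 1) ^ 2 * ∑ i, s i * (|c i| * a i) := by
      intro a ha
      induction ha using AddSubmonoid.closure_induction with
      | mem a ha =>
        obtain ⟨r, hr, z, hz, rfl⟩ := ha
        have h1 := h z
        have hval : ∀ i, (((Matrix.diagonal (fun i => Real.sqrt |c i|) * B) *ᵥ z) i) ^ 2 =
            |c i| * |(B *ᵥ z) i| := by
          intro i
          rw [← mulVec_mulVec, mulVec_diagonal, mul_pow, Real.sq_sqrt (abs_nonneg _)]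
          congr 1
          rw [← sq_abs]
          rcases hz i with h0 | h0 <;> rw [h0] <;> norm_num
        simp only [hval] at h1
        have e1 : ∑ i, |c i| * (r * |(B *ᵥ z) i|) = r * ∑ i, |c i| * |(B *ᵥ z) i| := by
          rw [mul_sum]
          exact sum_congr rfl fun i _ => by ring
        have e2 : ∑ i, s i * (|c i| * (r * |(B *ᵥ z) i|)) =
            r * ∑ i, s i * (|c i| * |(B *ᵥ z) i|) := by
          rw [mul_sum]
          exact sum_congr rfl fun i _ => by ring
        rw [e1, e2]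
        refine ⟨mul_le_mul_of_nonneg_left h1.1 hr, ?_⟩
        have h2 := mul_le_mul_of_nonneg_left h1.2 hr
        linarith
      | zero => simp
      | add a b _ _ ha hb =>
        have e1 : ∑ i, |c i| * (a + b) i = (∑ i, |c i| * a i) + ∑ i, |c i| * b i := by
          rw [← sum_add_distrib]
          exact sum_congr rfl fun i _ => by rw [Pi.add_apply]; ring
        have e2 : ∑ i, s i * (|c i| * (a + b) i) =
            (∑ i, s i * (|c i| * a i)) + ∑ i, s i * (|c i| * b i) := by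
          rw [← sum_add_distrib]
          exact sum_congr rfl fun i _ => by rw [Pi.add_apply]; ring
        rw [e1, e2]
        exact ⟨add_le_add ha.1 hb.1, by linarith [ha.2, hb.2]⟩
    obtain ⟨k1, k2⟩ := key _ (conformal B hB _ (L *ᵥ x) le_rfl)
    have hAx : ∀ i, |(A *ᵥ x) i| = |c i| * |(B *ᵥ (L *ᵥ x)) i| := by
      intro i
      rw [hA, ← mulVec_mulVec, ← mulVec_mulVec, mulVec_diagonal, abs_mul]
    simp only [hAx]
    refine ⟨k1, ?_⟩
    set S := ∑ i, s i * (|c i| * |(B *ᵥ (L *ᵥ x)) i|) with hS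
    have hS0 : 0 ≤ S := sum_nonneg fun i _ => by
      have := hs i
      positivity
    have h1 : ((N : ℝ) + 1) ^ 2 ≤ (1 + ε) * ((N : ℝ) - 1) ^ 2 := by
      have h3 : (N : ℝ) ^ 2 * ε ≥ 8 * N := by nlinarith
      nlinarith
    have h2 : ((N : ℝ) - 1) ^ 2 * ∑ i, |c i| * |(B *ᵥ (L *ᵥ x)) i| ≤
        ((N : ℝ) - 1) ^ 2 * ((1 + ε) * S) := by
      calc _ ≤ ((N : ℝ) + 1) ^ 2 * S := k2
        _ ≤ ((1 + ε) * ((N : ℝ) - 1) ^ 2) * S := mul_le_mul_of_nonneg_right h1 hS0
        _ = _ := by ring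
    have h3 : (0 : ℝ) < ((N : ℝ) - 1) ^ 2 := by
      have : (0 : ℝ) < N - 1 := by linarith
      positivity
    exact le_of_mul_le_mul_left h2 h3

end Pool.Agent.Results.MP_971d29_gt.RegularLift
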